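import Pool.Agent.P.MP_08e617_lc.DvF

namespace Pool.Agent.Old.MP_08e617_lc.DepthFourDeg

open Pool.Agent.P.MP_08e617_lc

/-- For all `k, δ` a deterministic polynomial-time Turing machine decides singularity of every input
whose determinant is algebraic over the algebra generated by `k` products of polynomials of total
degree at most `δ`; in particular when the determinant is the sum of `k` such products. -/
theorem result (k δ : ℕ) : ∃ f : List (List (List (ℚ × List ℕ))) → Bool,
    Nonempty (Turing.TM2ComputableInPolyTime encInput Computability.encodeBool f) ∧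
    ∀ (I : List (List (List (ℚ × List ℕ)))) (L : Fin k → List (MvPolynomial ℕ ℚ)),
      (∀ j, ∀ Q ∈ L j, Q.totalDegree ≤ δ) →
      IsAlgebraic (Algebra.adjoin ℚ (Set.range fun j => (L j).prod)) (polyMatrix I).det →
        (f I = true ↔ (polyMatrix I).det = 0) :=
  ⟨Dv.algo (Dv.seeds k δ), encInput_eq ▸ (Dv.pt_algo _).toTM2,
    fun _ L hL h => Dv.algo_spec fun h0 => Dv.hit _ L hL h0 h⟩

end Pool.Agent.Old.MP_08e617_lc.DepthFourDeg
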