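import Pool.Agent.P.MP_08e617_lc.R2L

namespace Pool.Agent.Results.MP_08e617_lc.RankTwoPolyTime

open Pool.Agent.P.MP_08e617_lc

/-- A deterministic polynomial-time Turing machine decides singularity of every input whose matrix
is `A₀ + ∑ x_i A_i` with `A₀` arbitrary and every `A_i` of rank at most two. -/
theorem result : ∃ f : List (List (List (ℚ × List ℕ))) → Bool,
    Nonempty (Turing.TM2ComputableInPolyTime encInput Computability.encodeBool f) ∧
    ∀ (I : List (List (List (ℚ × List ℕ)))) (k : ℕ) (A₀ : Matrix (Fin I.length) (Fin I.length) ℚ)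
      (A : ℕ → Matrix (Fin I.length) (Fin I.length) ℚ),
      (∀ i < k, (A i).rank ≤ 2) → polyMatrix I = pencil k A₀ A →
        (f I = true ↔ (polyMatrix I).det = 0) :=
  ⟨R2.alg2, encInput_eq ▸ R2.pt_alg2.toTM2, R2.alg2_correct⟩

end Pool.Agent.Results.MP_08e617_lc.RankTwoPolyTime
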