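import Pool.Agent.P.MP_08e617_lc.SxE

namespace Pool.Agent.Results.MP_08e617_lc.Subexp

open Pool.Agent.P.MP_08e617_lc

/-- One deterministic Turing machine decides singularity of every polynomial matrix, in time
polynomial in `N + ρ ^ ρ ^ 2` as soon as the weight of the matrix is at most `ρ ^ 3`. -/
theorem result : ∃ (tm : Turing.TM2ComputableAux Bool Bool) (q : Polynomial ℕ)
    (f : List (List (List (ℚ × List ℕ))) → Bool),
    (∀ I, f I = true ↔ (polyMatrix I).det = 0) ∧
    ∀ (I : List (List (List (ℚ × List ℕ)))) (ρ : ℕ), 2 ≤ ρ → wt (polyMatrix I) ≤ ρ ^ 3 →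
      Nonempty (Turing.TM2OutputsInTime tm.tm ((encInput I).map tm.inputAlphabet.invFun)
        (some ((Computability.encodeBool (f I)).map tm.outputAlphabet.invFun))
        (q.eval ((encInput I).length + ρ ^ ρ ^ 2))) :=
  Sx.main

end Pool.Agent.Results.MP_08e617_lc.Subexp
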