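import Pool.Agent.P.MP_08e617_lc.Main

namespace Pool.Agent.Results.MP_08e617_lc.SymWittNcRank

open Pool.Agent.P.MP_08e617_lc

/-- For symmetric pencils whose coefficient matrices have Witt index at most one, the maximal rank
attains the shrunk-subspace bound (rank equals non-commutative rank). -/
theorem result {n : ℕ} (k : ℕ) (A₀ : Matrix (Fin n) (Fin n) ℚ) (A : ℕ → Matrix (Fin n) (Fin n) ℚ)
    (h : InClass k A₀ A) :
    ∃ (a : ℕ → ℚ) (W Y : Submodule ℚ (Fin n → ℚ)), W.map A₀.mulVecLin ≤ Y ∧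
      (∀ i < k, W.map (A i).mulVecLin ≤ Y) ∧
      (A₀ + ∑ i ∈ Finset.range k, a i • A i).rank + Module.finrank ℚ W =
        n + Module.finrank ℚ Y :=
  edmonds_rado k A₀ A h

end Pool.Agent.Results.MP_08e617_lc.SymWittNcRank
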