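import Pool.Agent.P.MP_08e617_lc.Main

namespace Pool.Agent.Results.MP_08e617_lc.SymWittPolyTime

open Pool.Agent.P.MP_08e617_lc

/-- A deterministic polynomial-time Turing machine decides singularity of every input whose matrix
is `A₀ + ∑ x_i A_i` with, after left multiplication by some invertible constant matrix, `A₀`
symmetric and each `A_i` symmetric of Witt index at most one (for instance of rank at most 3, or
with at most one negative or at most one positive eigenvalue). -/
theorem result : ∃ f : List (List (List (ℚ × List ℕ))) → Bool,
    Nonempty (Turing.TM2ComputableInPolyTime encInput Computability.encodeBool f) ∧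
    ∀ (I : List (List (List (ℚ × List ℕ)))) (k : ℕ) (A₀ : Matrix (Fin I.length) (Fin I.length) ℚ)
      (A : ℕ → Matrix (Fin I.length) (Fin I.length) ℚ),
      InClass k A₀ A → polyMatrix I = pencil k A₀ A → (f I = true ↔ (polyMatrix I).det = 0) :=
  ⟨alg, encInput_eq ▸ pt_alg.toTM2, alg_correct⟩

end Pool.Agent.Results.MP_08e617_lc.SymWittPolyTime
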